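import Mathlib
import Pool.Agent.H16.IZLat

set_option autoImplicit false

namespace Pool.Agent.Results.MP_79490a_al.No

open Pool.Agent.H16.IZ

universe u

theorem result (p q : LT) (h : ∀ v : ℕ → Var, p.eval v = q.eval v) (L : Type u) [Lattice L] (v : ℕ → L) :
    p.eval v = q.eval v :=
  nolaw p q h L v

end Pool.Agent.Results.MP_79490a_al.No
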